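import Mathlib

set_option autoImplicit false

namespace Helper82.Gon3

universe u v w

section av

variable {G : Type u} [CommGroup G] [Fintype G] {Q : Type w} [AddCommGroup Q] [Module ℚ Q]

/-- average over a finite group -/
noncomputable def av (f : G → Q) : Q := ((Fintype.card G : ℚ)⁻¹) • ∑ g, f g

omit [CommGroup G] in
theorem av_add (f g : G → Q) : av (fun x => f x + g x) = av f + av g := by
  simp [av, Finset.sum_add_distrib, smul_add]

omit [CommGroup G] in
theorem av_smul (c : ℚ) (f : G → Q) : av (fun x => c • f x) = c • av f := by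
  simp [av, ← Finset.smul_sum, smul_comm c]

theorem av_const (q : Q) : av (fun _ : G => q) = q := by
  have hn : (Fintype.card G : ℚ) ≠ 0 := by
    exact_mod_cast Fintype.card_ne_zero
  rw [av, Finset.sum_const, Finset.card_univ, ← Nat.cast_smul_eq_nsmul ℚ, smul_smul,
    inv_mul_cancel₀ hn, one_smul]

omit [CommGroup G] in
theorem av_equiv (e : G ≃ G) (f : G → Q) : av (fun x => f (e x)) = av f := by
  rw [av, av, Equiv.sum_comp e f]

theorem av_divLeft (s : G) (f : G → Q) : av (fun x => f (s / x)) = av f :=
  av_equiv (Equiv.divLeft s) f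

theorem av_mulLeft (s : G) (f : G → Q) : av (fun x => f (s * x)) = av f :=
  av_equiv (Equiv.mulLeft s) f

end av

/-- finite group lemma -/
theorem fin_group {G : Type u} [CommGroup G] [Finite G] {V : Type v} {Q : Type w}
    [AddCommGroup V] [AddCommGroup Q] [Module ℚ Q] (L : G → V) (B : V →+ V →+ Q)
    (hB : ∀ v w, B v w = B w v) (h1 : L 1 = 0)
    (h : ∀ x y s : G, B (L x + L (s / x) - L y - L (s / y))
      (L x + L (s / x) - L y - L (s / y)) = 0) (x y : G) : B (L x) (L y) = 0 := by
  classical
  have := Fintype.ofFinite G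
  set F : G → G → Q := fun u t => B (L u) (L t) with hF
  have Fsym : ∀ u t, F u t = F t u := fun u t => hB _ _
  have F1 : ∀ t, F 1 t = 0 := by
    intro t
    simp [hF, h1]
  have rel : ∀ u s v, (F u u + (2:ℚ) • F u (s / u) + F (s / u) (s / u)) +
      F v v + (2:ℚ) • F v (s / v) + F (s / v) (s / v) =
      (2:ℚ) • F u v + (2:ℚ) • F u (s / v) + (2:ℚ) • F (s / u) v + (2:ℚ) • F (s / u) (s / v) := by
    intro u s v
    have hh := h v u s
    simp only [map_add, map_sub, AddMonoidHom.add_apply, AddMonoidHom.sub_apply] at hh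
    rw [hB (L (s / v)) (L v), hB (L v) (L u), hB (L v) (L (s / u)), hB (L (s / v)) (L u),
      hB (L (s / v)) (L (s / u)), hB (L (s / u)) (L u)] at hh
    simp only [hF]
    linear_combination (norm := module) hh
  set A : G → Q := fun u => av (fun v => F u v) with hA
  set D : Q := av (fun v => F v v) with hD
  set C : G → Q := fun s => av (fun v => F v (s / v)) with hC
  have h2 : ∀ u s, (F u u + (2:ℚ) • F u (s / u) + F (s / u) (s / u)) + D + (2:ℚ) • C s + D =
      (2:ℚ) • A u + (2:ℚ) • A u + (2:ℚ) • A (s / u) + (2:ℚ) • A (s / u) := by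
    intro u s
    have hh := congrArg av (funext (fun v => rel u s v))
    simp only [av_add, av_smul, av_const] at hh
    rw [av_divLeft s (fun v => F v v), av_divLeft s (fun v => F u v),
      av_divLeft s (fun v => F (s / u) v)] at hh
    exact hh
  set ga0 : G → Q := fun s => - C s with hga0
  set ga : G → Q := fun s => ga0 s + (-1 : ℚ) • av ga0 with hga
  -- F in terms of ga
  have al : ∀ u t, F u t = ((2:ℚ) • A u - (1/2:ℚ) • F u u - (1/2:ℚ) • D) +
      ((2:ℚ) • A t - (1/2:ℚ) • F t t - (1/2:ℚ) • D) + ga0 (u * t) := by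
    intro u t
    have hh := h2 u (u * t)
    rw [mul_div_cancel_left] at hh
    simp only [hga0]
    linear_combination (norm := module) (1/2:ℚ) • hh
  set a' : G → Q := fun u => (2:ℚ) • A u - (1/2:ℚ) • F u u - (1/2:ℚ) • D with ha'
  have al' : ∀ u t, F u t = a' u + a' t + ga0 (u * t) := al
  have fg : ∀ u t, F u t = ga (u * t) - ga u - ga t + ga 1 := by
    intro u t
    have e1 := al' u t
    have e2 := al' 1 u
    have e3 := al' 1 t
    have e4 := al' 1 1
    rw [F1] at e2 e3 e4
    rw [one_mul] at e2 e3 e4
    simp only [hga]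
    linear_combination (norm := module) e1 - e2 - e3 + e4
  have avga : av ga = 0 := by
    simp only [hga]
    rw [av_add, av_smul, av_const]
    module
  have star : ∀ u s v, (ga (u * u) + ga ((s / u) * (s / u)) + (4:ℚ) • ga s) +
      ga (v * v) + ga ((s / v) * (s / v)) =
      (2:ℚ) • ga (u * v) + (2:ℚ) • ga ((u * s) / v) + (2:ℚ) • ga ((s / u) * v) +
      (2:ℚ) • ga (((s / u) * s) / v) := by
    intro u s v
    have hh := rel u s v
    simp only [fg] at hh
    rw [mul_div_cancel u s, mul_div_cancel v s] at hh
    rw [mul_div_assoc u s v, mul_div_assoc (s / u) s v]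
    linear_combination (norm := module) hh
  set E : Q := av (fun v => ga (v * v)) with hE
  have h3 : ∀ u s, (ga (u * u) + ga ((s / u) * (s / u)) + (4:ℚ) • ga s) + E + E = 0 := by
    intro u s
    have hh := congrArg av (funext (fun v => star u s v))
    simp only [av_add, av_smul, av_const] at hh
    rw [av_divLeft s (fun v => ga (v * v)), av_divLeft (u * s) ga, av_mulLeft u ga,
      av_mulLeft (s / u) ga, av_divLeft ((s / u) * s) ga, avga] at hh
    rw [← hE] at hh
    rw [hh]
    simp
  have h4 : ∀ s, ga (s * s) = (-2:ℚ) • E - (4:ℚ) • ga s - ga 1 := by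
    intro s
    have hh := h3 s s
    rw [div_self', one_mul] at hh
    linear_combination (norm := module) hh
  have h5 : ∀ u t, ga (u * t) = ga u + ga t + (1/2:ℚ) • (E + ga 1) := by
    intro u t
    have hh := h3 u (u * t)
    rw [mul_div_cancel_left, h4, h4] at hh
    linear_combination (norm := module) (1/4:ℚ) • hh
  set c : Q := (1/2:ℚ) • (E + ga 1) with hc
  have hom : ∀ u t, ga (u * t) + c = (ga u + c) + (ga t + c) := by
    intro u t
    rw [h5]; abel
  let φ : G →* Multiplicative Q :=
    { toFun := fun g => Multiplicative.ofAdd (ga g + c)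
      map_one' := by
        have := hom 1 1
        rw [mul_one] at this
        have h0 : ga 1 + c = 0 := by
          have h6 : ga 1 + c + (ga 1 + c) = ga 1 + c := this.symm
          simpa using h6
        rw [h0]; rfl
      map_mul' := fun u t => by
        rw [hom]; rfl }
  have hφ : ∀ g, ga g + c = 0 := by
    intro g
    have e : φ (g ^ Fintype.card G) = 1 := by rw [pow_card_eq_one, map_one]
    rw [map_pow] at e
    have e2 : (Fintype.card G) • (ga g + c) = 0 := e
    rw [← Nat.cast_smul_eq_nsmul ℚ] at e2
    rcases smul_eq_zero.mp e2 with h6 | h6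
    · exact absurd h6 (by exact_mod_cast Fintype.card_ne_zero)
    · exact h6
  have : F x y = 0 := by
    rw [fg]
    have e1 := hφ (x * y)
    have e2 := hφ x
    have e3 := hφ y
    have e4 := hφ 1
    linear_combination (norm := module) e1 - e2 - e3 + e4
  exact this

end Helper82.Gon3
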