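import Mathlib

set_option autoImplicit false

namespace Helper82.Gon3

universe u w

/-- averaging lemma: a solution of the five term relation over a finite field which changes sign
under inversion vanishes -/
theorem five_avg {K : Type u} [Field K] [Finite K] {Q : Type w} [AddCommGroup Q] [Module ℚ Q]
    (S : K → Q) (hinv : ∀ r, r ≠ 0 → r ≠ 1 → S r⁻¹ = - S r)
    (h5 : ∀ r t, r ≠ 0 → r ≠ 1 → t ≠ 0 → t ≠ 1 → r ≠ t →
      S r - S t + S (t / r) - S ((1 - r⁻¹) / (1 - t⁻¹)) + S ((1 - r) / (1 - t)) = 0)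
    (r : K) (h0 : r ≠ 0) (h1 : r ≠ 1) : S r = 0 := by
  classical
  have := Fintype.ofFinite K
  set S' : K → Q := fun x => if x = 0 ∨ x = 1 then 0 else S x with hS'
  have hS0 : S' 0 = 0 := by simp [hS']
  have hS1 : S' 1 = 0 := by simp [hS']
  have hSne : ∀ x, x ≠ 0 → x ≠ 1 → S' x = S x := by
    intro x h h'
    simp [hS', h, h']
  have hinv' : ∀ x, S' x⁻¹ = - S' x := by
    intro x
    by_cases hx0 : x = 0
    · subst hx0; simp [hS0]
    by_cases hx1 : x = 1
    · subst hx1; simp [hS1]
    rw [hSne x hx0 hx1, hSne x⁻¹ (inv_ne_zero hx0) (fun h => hx1 (inv_eq_one.mp h)), hinv x hx0 hx1]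
  have tors : ∀ (q : ℚ) (x : Q), q ≠ 0 → q • x = 0 → x = 0 := by
    intro q x hq hx
    rcases smul_eq_zero.mp hx with h | h
    · exact absurd h hq
    · exact h
  -- total sum zero
  have hsum : ∑ t : K, S' t = 0 := by
    have e : ∑ t : K, S' t⁻¹ = ∑ t : K, S' t := Equiv.sum_comp (Equiv.inv K) S'
    simp only [hinv', Finset.sum_neg_distrib] at e
    apply tors 2 _ (by norm_num)
    rw [two_smul]
    nth_rewrite 1 [← e]
    simp
  have key : ∀ r : K, r ≠ 0 → r ≠ 1 →
      ((Fintype.card K : ℚ) - 1) • S' r = S' (1 - r) - S' (1 - r⁻¹) := by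
    intro r hr0 hr1
    have hr1' : 1 - r ≠ 0 := fun h => hr1 (sub_eq_zero.mp h).symm
    have hr1'' : 1 - r⁻¹ ≠ 0 := by
      intro h
      have := sub_eq_zero.mp h
      exact hr1 (inv_eq_one.mp this.symm)
    set g : K → Q := fun t =>
      S' r - S' t + S' (t / r) - S' ((1 - r⁻¹) / (1 - t⁻¹)) + S' ((1 - r) / (1 - t)) with hg
    have s1 : ∑ t : K, S' (t / r) = 0 := by
      rw [← hsum]
      have := Equiv.sum_comp (Equiv.mulRight₀ r⁻¹ (inv_ne_zero hr0)) S'
      rw [← this]
      refine Finset.sum_congr rfl fun t _ => ?_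
      simp [div_eq_mul_inv]
    have s2 : ∑ t : K, S' ((1 - r⁻¹) / (1 - t⁻¹)) = 0 := by
      rw [← hsum]
      have := Equiv.sum_comp ((Equiv.inv K).trans ((Equiv.subLeft (1:K)).trans
        ((Equiv.inv K).trans (Equiv.mulLeft₀ (1 - r⁻¹) hr1'')))) S'
      rw [← this]
      refine Finset.sum_congr rfl fun t _ => ?_
      simp [div_eq_mul_inv]
    have s3 : ∑ t : K, S' ((1 - r) / (1 - t)) = 0 := by
      rw [← hsum]
      have := Equiv.sum_comp ((Equiv.subLeft (1:K)).trans
        ((Equiv.inv K).trans (Equiv.mulLeft₀ (1 - r) hr1'))) S'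
      rw [← this]
      refine Finset.sum_congr rfl fun t _ => ?_
      simp [div_eq_mul_inv]
    have t1 : ∑ t : K, g t = (Fintype.card K : ℚ) • S' r := by
      simp only [hg, Finset.sum_add_distrib, Finset.sum_sub_distrib, s1, s2, s3, hsum]
      simp [Finset.card_univ, Nat.cast_smul_eq_nsmul]
    have t2 : ∑ t : K, g t = g 0 := by
      refine Finset.sum_eq_single 0 ?_ (fun h => absurd (Finset.mem_univ _) h)
      intro t _ ht0
      by_cases ht1 : t = 1
      · subst ht1
        simp [hg, hS0, hS1, hinv']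
      by_cases htr : t = r
      · subst htr
        simp [hg, hS1, hr0, hr1', hr1'']
      · have hh := h5 r t hr0 hr1 ht0 ht1 (fun h => htr h.symm)
        have a1 : t / r ≠ 0 := div_ne_zero ht0 hr0
        have a2 : t / r ≠ 1 := by
          intro h
          exact htr ((div_eq_one_iff_eq hr0).mp h)
        have ht1' : 1 - t ≠ 0 := fun h => ht1 (sub_eq_zero.mp h).symm
        have ht1'' : 1 - t⁻¹ ≠ 0 := by
          intro h
          have := sub_eq_zero.mp h
          exact ht1 (inv_eq_one.mp this.symm)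
        have a3 : (1 - r⁻¹) / (1 - t⁻¹) ≠ 0 := div_ne_zero hr1'' ht1''
        have a4 : (1 - r⁻¹) / (1 - t⁻¹) ≠ 1 := by
          intro h
          have := (div_eq_one_iff_eq ht1'').mp h
          have h2 : r⁻¹ = t⁻¹ := by
            have := congrArg (fun x => 1 - x) this
            simpa using this
          exact htr (inv_injective h2).symm
        have a5 : (1 - r) / (1 - t) ≠ 0 := div_ne_zero hr1' ht1'
        have a6 : (1 - r) / (1 - t) ≠ 1 := by
          intro h
          have := (div_eq_one_iff_eq ht1').mp h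
          have h2 : r = t := by
            have := congrArg (fun x => 1 - x) this
            simpa using this
          exact htr h2.symm
        simp only [hg]
        rw [hSne r hr0 hr1, hSne t ht0 ht1, hSne _ a1 a2, hSne _ a3 a4, hSne _ a5 a6]
        exact hh
    have t3 : g 0 = S' r - S' (1 - r⁻¹) + S' (1 - r) := by
      simp [hg, hS0]
    rw [t1, t3] at t2
    rw [sub_smul, one_smul, t2]
    abel
  -- finish
  have hr1' : 1 - r ≠ 0 := fun h => h1 (sub_eq_zero.mp h).symm
  have hr2 : 1 - r ≠ 1 := by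
    intro h
    apply h0
    have := congrArg (fun x => 1 - x) h
    simpa using this
  have hr1'' : 1 - r⁻¹ ≠ 0 := by
    intro h
    have := sub_eq_zero.mp h
    exact h1 (inv_eq_one.mp this.symm)
  have hr3 : 1 - r⁻¹ ≠ 1 := by
    intro h
    have := congrArg (fun x => 1 - x) h
    simp at this
    exact h0 this
  have hrm : r - 1 ≠ 0 := sub_ne_zero.mpr h1
  have k1 := key r h0 h1
  have k2 := key (1 - r) hr1' hr2
  have k3 := key (1 - r⁻¹) hr1'' hr3
  have e1 : 1 - (1 - r) = r := by ring
  have e2 : 1 - (1 - r)⁻¹ = (1 - r⁻¹)⁻¹ := by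
    field_simp
    ring
  have e3 : 1 - (1 - r⁻¹) = r⁻¹ := by ring
  have e4 : 1 - (1 - r⁻¹)⁻¹ = (1 - r)⁻¹ := by
    rw [← e2]; ring
  rw [e1, e2, hinv'] at k2
  rw [e3, e4, hinv', hinv'] at k3
  set a := S' r
  set b := S' (1 - r)
  set c := S' (1 - r⁻¹)
  have hN : 2 < (Fintype.card K : ℚ) := by
    have : 2 < Fintype.card K := by
      have h3 : ({0, 1, r} : Finset K).card ≤ Fintype.card K := Finset.card_le_univ _
      have h4 : ({0, 1, r} : Finset K).card = 3 := by
        rw [Finset.card_eq_three]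
        exact ⟨0, 1, r, zero_ne_one, h0.symm, h1.symm, rfl⟩
      omega
    exact_mod_cast this
  set N : ℚ := (Fintype.card K : ℚ)
  have hbc : b + c = 0 := by
    apply tors (N - 2) _ (by linarith)
    have : (N - 1) • (b + c) = b + c := by
      rw [smul_add, k2, k3]; abel
    have h5 : (N - 2) • (b + c) = (N - 1) • (b + c) - (b + c) := by
      rw [show N - 2 = (N - 1) - 1 by ring, sub_smul (N - 1), one_smul]
    rw [h5, this, sub_self]
  have hc : c = -b := by
    rw [add_comm] at hbc
    exact eq_neg_of_add_eq_zero_left hbc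
  have ha : a = N • b := by
    have : (N - 1) • b = a - b := by
      rw [k2, hc]; abel
    have h6 : N • b = (N - 1) • b + b := by
      rw [sub_smul, one_smul]; abel
    rw [h6, this]; abel
  have hb : b = 0 := by
    apply tors ((N - 2) * (N + 1)) _ (mul_ne_zero (by linarith) (by linarith))
    have h7 : (N - 1) • (N • b) = (2:ℚ) • b := by
      rw [← ha, k1, hc, two_smul]; abel
    have h8 : ((N - 2) * (N + 1)) • b = (N - 1) • (N • b) - (2:ℚ) • b := by
      rw [smul_smul, ← sub_smul]
      congr 1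
      ring
    rw [h8, h7, sub_self]
  have ha0 : a = 0 := by rw [ha, hb, smul_zero]
  rw [← hSne r h0 h1]
  exact ha0

end Helper82.Gon3
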